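import Pool.Agent.Y206.Q.Stm

set_option autoImplicit false

open scoped LinearAlgebra.Projectivization
open Module

/-!
# Project QG: the same number of points on each of two skew lines form a grid
-/

namespace Pool.Agent.Y625.QG

abbrev W4 : Type := Fin 4 → ℂ

/-- distinct points are independent -/
theorem inf_pt {p q : ℙ ℂ W4} (h : p ≠ q) : p.submodule ⊓ q.submodule = ⊥ := by
  by_contra hne
  have h1 : 0 < finrank ℂ (↥(p.submodule ⊓ q.submodule)) := by
    rw [pos_iff_ne_zero]
    intro h0
    exact hne (Submodule.finrank_eq_zero.mp h0)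
  have h2 : p.submodule ⊓ q.submodule = p.submodule :=
    Submodule.eq_of_le_of_finrank_le inf_le_left (by rw [p.finrank_submodule]; omega)
  have h3 : p.submodule ⊓ q.submodule = q.submodule :=
    Submodule.eq_of_le_of_finrank_le inf_le_right (by rw [q.finrank_submodule]; omega)
  exact h (Projectivization.submodule_injective (h2.symm.trans h3))

/-- the span of two points with trivial intersection is a line -/
theorem finrank_sup_pt {p q : ℙ ℂ W4} (h : p.submodule ⊓ q.submodule = ⊥) :
    finrank ℂ (↥(p.submodule ⊔ q.submodule)) = 2 := by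
  have h1 := Submodule.finrank_sup_add_finrank_inf_eq p.submodule q.submodule
  rw [h, finrank_bot, p.finrank_submodule, q.finrank_submodule] at h1
  omega

/-- two points on a line span it -/
theorem sup_pt_eq {p q : ℙ ℂ W4} {L : Submodule ℂ W4} (hL : finrank ℂ L = 2) (hp : p.submodule ≤ L)
    (hq : q.submodule ≤ L) (h : p ≠ q) : p.submodule ⊔ q.submodule = L :=
  Submodule.eq_of_le_of_finrank_le (sup_le hp hq) (by rw [hL, finrank_sup_pt (inf_pt h)])

/-- TWO -/
theorem two : Pool.Agent.Y206.Q.S_TWO := by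
  intro Z b L hL h01 hZ hb0 hb1
  have hf0 : Finite {z // z ∈ Z ∧ z.submodule ≤ L 0} :=
    Finite.of_injective (fun z : {z // z ∈ Z ∧ z.submodule ≤ L 0} => (⟨z.1, z.2.1⟩ : Z))
      (fun x y h => Subtype.ext (Subtype.mk.inj h))
  have hf1 : Finite {z // z ∈ Z ∧ z.submodule ≤ L 1} :=
    Finite.of_injective (fun z : {z // z ∈ Z ∧ z.submodule ≤ L 1} => (⟨z.1, z.2.1⟩ : Z))
      (fun x y h => Subtype.ext (Subtype.mk.inj h))
  let e0 := (Finite.equivFinOfCardEq hb0).symm
  let e1 := (Finite.equivFinOfCardEq hb1).symm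
  let p : Fin b → ℙ ℂ W4 := fun j => (e0 j).1
  let r : Fin b → ℙ ℂ W4 := fun j => (e1 j).1
  have hpZ : ∀ j, p j ∈ Z := fun j => (e0 j).2.1
  have hrZ : ∀ j, r j ∈ Z := fun j => (e1 j).2.1
  have hpL : ∀ j, (p j).submodule ≤ L 0 := fun j => (e0 j).2.2
  have hrL : ∀ j, (r j).submodule ≤ L 1 := fun j => (e1 j).2.2
  have hpi : ∀ j j', j ≠ j' → p j ≠ p j' := fun j j' h h' =>
    h (e0.injective (Subtype.ext h'))
  have hri : ∀ j j', j ≠ j' → r j ≠ r j' := fun j j' h h' =>
    h (e1.injective (Subtype.ext h'))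
  have hpr : ∀ i j, (p i).submodule ⊓ (r j).submodule = ⊥ := fun i j =>
    le_bot_iff.mp (h01 ▸ inf_le_inf (hpL i) (hrL j))
  have hM0 : ∀ j, L 0 ⊓ ((p j).submodule ⊔ (r j).submodule) = (p j).submodule := by
    intro j
    rw [inf_comm, sup_inf_assoc_of_le _ (hpL j)]
    have : (r j).submodule ⊓ L 0 = ⊥ := by
      rw [inf_comm]
      exact le_bot_iff.mp (h01 ▸ inf_le_inf le_rfl (hrL j))
    rw [this, sup_bot_eq]
  have hM1 : ∀ j, L 1 ⊓ ((p j).submodule ⊔ (r j).submodule) = (r j).submodule := by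
    intro j
    rw [inf_comm, sup_comm, sup_inf_assoc_of_le _ (hrL j)]
    have : (p j).submodule ⊓ L 1 = ⊥ := le_bot_iff.mp (h01 ▸ inf_le_inf (hpL j) le_rfl)
    rw [this, sup_bot_eq]
  have hMr : ∀ j, finrank ℂ (↥((p j).submodule ⊔ (r j).submodule)) = 2 := fun j =>
    finrank_sup_pt (hpr j j)
  have hLL : finrank ℂ (↥(L 0 ⊔ L 1)) = 4 := by
    have h1 := Submodule.finrank_sup_add_finrank_inf_eq (L 0) (L 1)
    rw [h01, finrank_bot, hL 0, hL 1] at h1
    omega
  refine ⟨2, b, L, fun j => (p j).submodule ⊔ (r j).submodule, hL, hMr, ?_, ?_, ?_, ?_⟩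
  · intro i i' hii
    fin_cases i <;> fin_cases i'
    · exact absurd rfl hii
    · exact h01
    · rw [inf_comm]; exact h01
    · exact absurd rfl hii
  · intro j j' hjj
    have h1 := Submodule.finrank_sup_add_finrank_inf_eq ((p j).submodule ⊔ (r j).submodule)
      ((p j').submodule ⊔ (r j').submodule)
    have h2 : (p j).submodule ⊔ (r j).submodule ⊔ ((p j').submodule ⊔ (r j').submodule) =
        L 0 ⊔ L 1 := by
      rw [sup_sup_sup_comm, sup_pt_eq (hL 0) (hpL j) (hpL j') (hpi j j' hjj),
        sup_pt_eq (hL 1) (hrL j) (hrL j') (hri j j' hjj)]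
    rw [h2, hLL, hMr, hMr] at h1
    change ((p j).submodule ⊔ (r j).submodule) ⊓ ((p j').submodule ⊔ (r j').submodule) = ⊥
    apply Submodule.finrank_eq_zero.mp
    omega
  · intro i j
    fin_cases i
    · change finrank ℂ (↥(L 0 ⊓ ((p j).submodule ⊔ (r j).submodule))) = 1
      rw [hM0 j]; exact (p j).finrank_submodule
    · change finrank ℂ (↥(L 1 ⊓ ((p j).submodule ⊔ (r j).submodule))) = 1
      rw [hM1 j]; exact (r j).finrank_submodule
  · intro z
    constructor
    · intro hz
      rcases hZ z hz with h | h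
      · refine ⟨0, e0.symm ⟨z, hz, h⟩, ?_⟩
        rw [hM0]
        have : p (e0.symm ⟨z, hz, h⟩) = z := by
          simp [p]
        rw [this]
      · refine ⟨1, e1.symm ⟨z, hz, h⟩, ?_⟩
        rw [hM1]
        have : r (e1.symm ⟨z, hz, h⟩) = z := by
          simp [r]
        rw [this]
    · rintro ⟨i, j, hij⟩
      fin_cases i
      · change z.submodule = L 0 ⊓ ((p j).submodule ⊔ (r j).submodule) at hij
        rw [hM0 j] at hij
        rw [Projectivization.submodule_injective hij]
        exact hpZ j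
      · change z.submodule = L 1 ⊓ ((p j).submodule ⊔ (r j).submodule) at hij
        rw [hM1 j] at hij
        rw [Projectivization.submodule_injective hij]
        exact hrZ j

end Pool.Agent.Y625.QG
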